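import Pool.Agent.Helper27.RV.St

/-! RV module CVA: coverings of small ordinals. -/

set_option autoImplicit false

open Cardinal Ordinal Set

universe u

namespace Pool.Agent.Helper9.RV

open Pool.Agent.Helper27.RV

theorem pCVA : StCVA.{u} := by
  intro K β δ m t hm hδ ht
  rcases eq_zero_or_pos t with h0 | h0
  · refine ⟨PEmpty, ?_, fun i => i.elim, ?_⟩
    · rw [mk_pempty]
      exact zero_lt_one.trans hm
    · intro y hy
      refine ⟨∅, ?_, ?_⟩
      · have h1 : #(∅ : Set PEmpty) = 0 := by simp
        rw [h1]
        exact zero_le_one.trans hδ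
      · intro e
        have h1 := hy e
        rw [h0] at h1
        exact absurd h1 not_lt_zero
  · obtain ⟨e, -, he⟩ := enum_ord ht h0
    refine ⟨PUnit, ?_, fun _ => e, ?_⟩
    · rw [mk_punit]
      exact hm
    · intro y hy
      refine ⟨univ, ?_, fun b => ?_⟩
      · rw [mk_univ, mk_punit]
        exact hδ
      · obtain ⟨k, hk⟩ := he (y b) (hy b)
        exact ⟨PUnit.unit, trivial, k, hk.symm⟩

end Pool.Agent.Helper9.RV
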